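import Pool.Agent.P8H10.ET.StmA
import Pool.Agent.P8H4.KM.Lio

/-!
Package CLOS of the project ET of helper10 (helper4): values of integral polynomials at algebraic numbers of
bounded size.
-/

set_option autoImplicit false

open Finset Filter Topology Pool.Agent.R347.LW

namespace Pool.Agent.P8H4.ET

open Pool.Agent.P8H10.ET Pool.Agent.P8H4.KM

theorem aeval_sum {R : Type} [CommRing R] {n : ℕ} (a : Fin n → R) (P : MvPolynomial (Fin n) ℤ) :
    MvPolynomial.aeval a P = ∑ d ∈ P.support, ((P.coeff d : ℤ) : R) * ∏ i, a i ^ d i := by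
  rw [MvPolynomial.aeval_def, MvPolynomial.eval₂_eq']
  refine Finset.sum_congr rfl fun d _ => ?_
  simp

theorem RB_poly {n N : ℕ} (hn : n ≤ N) (hN : 1 ≤ N) (a : Fin n → ℂ) (ha : ∀ i, RB N N (a i))
    (P : MvPolynomial (Fin n) ℤ) (hP : Sz N P) (G N' : ℕ) (hG : (N * N + 1) ^ (N * N + 1) ≤ G)
    (hN' : 2 ^ G * (2 * ((N ^ N) ^ N * (N * (N + 1) ^ N + 1))) ^ G ≤ N') :
    RB G N' (MvPolynomial.aeval a P) := by
  classical
  obtain ⟨L, hL1, hL2, hL4, A, D, hA, hD1, hDN, hAI, hAR⟩ := common_field N N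
    (ι := Fin n) a ha
  have hcard : Fintype.card (Fin n) = n := by simp
  rw [hcard] at hL4 hDN
  have hL4' : Fintype.card (L ≃ₐ[ℚ] L) ≤ (N * N + 1) ^ (N * N + 1) := by
    refine hL4.trans ?_
    have h1 : n * N + 1 ≤ N * N + 1 := Nat.succ_le_succ (Nat.mul_le_mul_right N hn)
    exact (Nat.pow_le_pow_left h1 _).trans (Nat.pow_le_pow_right (Nat.succ_pos _) h1)
  have hDN' : D ≤ N ^ N := hDN.trans (Nat.pow_le_pow_right hN hn)
  have hR0 : (0 : ℝ) ≤ (N : ℝ) + 1 := by positivity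
  have hR1 : (1 : ℝ) ≤ (N : ℝ) + 1 := by
    have : (0 : ℝ) ≤ N := by positivity
    linarith
  have hg : ∀ i, Gd L D ((N : ℝ) + 1) 1 (A i) := fun i => by
    refine ⟨?_, fun σ => ?_⟩
    · rw [pow_one]
      exact hAI i
    · rw [pow_one]
      exact hAR i σ
  obtain ⟨Z, hZ⟩ : ∃ Z : L, Z = ∑ d ∈ P.support, ((P.coeff d : ℤ) : L) * ∏ i, A i ^ d i := ⟨_, rfl⟩
  have hZc : (Z : ℂ) = MvPolynomial.aeval a P := by
    rw [hZ, aeval_sum]
    push_cast
    refine Finset.sum_congr rfl fun d _ => ?_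
    congr 1
    refine Finset.prod_congr rfl fun i _ => ?_
    have h1 : ((A i : L) : ℂ) = a i := hA _
    rw [h1]
  have hterm : ∀ d ∈ P.support, Gd L D ((N : ℝ) + 1) N (∏ i, A i ^ d i) := by
    intro d hd
    refine Gd.mono hR1 (Gd.prod univ hR0 (fun i => d i * 1) _ fun i _ => (hg i).pow hR0 _) ?_
    have h1 := MvPolynomial.le_totalDegree hd
    rw [Finsupp.sum_fintype _ _ fun _ => rfl] at h1
    simpa using h1.trans hP.1
  have hZI : IsIntegral ℤ (((D ^ N : ℕ) : L) * Z) := by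
    rw [hZ, Finset.mul_sum]
    push_cast
    refine IsIntegral.sum _ fun d hd => ?_
    have h1 : (D : L) ^ N * (((P.coeff d : ℤ) : L) * ∏ i, A i ^ d i) =
        ((P.coeff d : ℤ) : L) * ((D : L) ^ N * ∏ i, A i ^ d i) := by ring
    rw [h1]
    have h2 : IsIntegral ℤ (algebraMap ℤ L (P.coeff d)) := isIntegral_algebraMap
    have h3 : IsIntegral ℤ ((P.coeff d : ℤ) : L) := by simpa using h2
    exact h3.mul (hterm d hd).1
  have hZR : ∀ σ : L ≃ₐ[ℚ] L, ‖((σ Z : L) : ℂ)‖ ≤ N * ((N : ℝ) + 1) ^ N + 1 := by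
    intro σ
    rw [hZ, map_sum]
    have h1 : ((∑ d ∈ P.support, σ (((P.coeff d : ℤ) : L) * ∏ i, A i ^ d i) : L) : ℂ) =
      ∑ d ∈ P.support, ((P.coeff d : ℤ) : ℂ) * ((σ (∏ i, A i ^ d i) : L) : ℂ) := by
      rw [AddSubmonoidClass.coe_finsetSum]
      refine Finset.sum_congr rfl fun d _ => ?_
      rw [map_mul, map_intCast]
      push_cast
      rfl
    rw [h1]
    refine (norm_sum_le _ _).trans ?_
    have h2 : ∑ d ∈ P.support, ‖((P.coeff d : ℤ) : ℂ) * ((σ (∏ i, A i ^ d i) : L) : ℂ)‖ ≤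
        ∑ d ∈ P.support, ((|P.coeff d| : ℤ) : ℝ) * ((N : ℝ) + 1) ^ N := by
      refine Finset.sum_le_sum fun d hd => ?_
      rw [norm_mul, Complex.norm_intCast, Int.cast_abs]
      exact mul_le_mul_of_nonneg_left ((hterm d hd).2 σ) (abs_nonneg _)
    refine h2.trans ?_
    rw [← Finset.sum_mul]
    have h3 : ∑ d ∈ P.support, ((|P.coeff d| : ℤ) : ℝ) ≤ N := by
      have h4 := hP.2
      have h5 : ((∑ d ∈ P.support, |P.coeff d| : ℤ) : ℝ) ≤ ((N : ℤ) : ℝ) := by exact_mod_cast h4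
      push_cast at h5
      push_cast
      exact h5
    have h4 := mul_le_mul_of_nonneg_right h3 (pow_nonneg hR0 N)
    linarith
  have hGpos : 1 ≤ G := le_trans (Nat.one_le_pow _ _ (Nat.succ_pos _)) hG
  have hmain := poly_prod L 1 (fun j => if j = 0 then -Z else 1) (D ^ N) (Nat.one_le_pow _ _ hD1)
    (N * ((N : ℝ) + 1) ^ N + 1) (by simp) (fun j _ => ?_) (fun j _ σ => ?_) (Z : ℂ) ?_ N' ?_
  · rw [← hZc]
    refine hmain.mono ?_ le_rfl
    rw [one_mul]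
    exact hL4'.trans hG
  · split_ifs
    · rw [mul_neg]
      exact hZI.neg
    · rw [mul_one]
      have h2 : IsIntegral ℤ (algebraMap ℤ L ((D ^ N : ℕ) : ℤ)) := isIntegral_algebraMap
      simpa using h2
  · split_ifs
    · rw [map_neg]
      push_cast
      rw [norm_neg]
      exact hZR σ
    · rw [map_one]
      have : (0 : ℝ) ≤ N * ((N : ℝ) + 1) ^ N := by positivity
      simp only [OneMemClass.coe_one, norm_one]
      linarith
  · rw [Finset.sum_range_succ, Finset.sum_range_one]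
    simp
  · have h1 : ((2 ^ G * (2 * ((N ^ N) ^ N * (N * (N + 1) ^ N + 1))) ^ G : ℕ) : ℝ) ≤
        N' := by exact_mod_cast hN'
    refine le_trans ?_ h1
    push_cast
    have hgG : Fintype.card (L ≃ₐ[ℚ] L) ≤ G := hL4'.trans hG
    have hDR : (D : ℝ) ≤ (N : ℝ) ^ N := by exact_mod_cast hDN'
    have hD1R : (1 : ℝ) ≤ D := by exact_mod_cast hD1
    have hB : (1 : ℝ) ≤ N * ((N : ℝ) + 1) ^ N + 1 := by
      have : (0 : ℝ) ≤ N * ((N : ℝ) + 1) ^ N := by positivity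
      linarith
    have hm1 : (1 : ℝ) ≤ (N : ℝ) ^ N := hD1R.trans hDR
    have hbase : (1 : ℝ) ≤ 2 * (((N : ℝ) ^ N) ^ N * (N * ((N : ℝ) + 1) ^ N + 1)) := by
      have := one_le_mul_of_one_le_of_one_le (one_le_pow₀ hm1 (n := N)) hB
      linarith
    refine mul_le_mul ?_ ?_ (by positivity) (by positivity)
    · exact pow_le_pow_right₀ (by norm_num) (by rw [one_mul]; exact hgG)
    · refine le_trans ?_ (pow_le_pow_right₀ hbase hgG)
      refine pow_le_pow_left₀ (by positivity) ?_ _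
      have h2 : ((D : ℝ) ^ N) ≤ ((N : ℝ) ^ N) ^ N := by gcongr
      calc ((1 : ℝ) + 1) * ((D : ℝ) ^ N * (N * ((N : ℝ) + 1) ^ N + 1)) =
          2 * ((D : ℝ) ^ N * (N * ((N : ℝ) + 1) ^ N + 1)) := by ring
        _ ≤ _ := by gcongr

/-- the bounds -/
def bG (N : ℕ) : ℕ := (N * N + 1) ^ (N * N + 1)
/-- the bounds -/
def bF (N : ℕ) : ℕ := 2 ^ bG N * (2 * ((N ^ N) ^ N * (N * (N + 1) ^ N + 1))) ^ bG N

theorem exists_tow' : ∃ h' : ℕ, ∀ Y : ℕ, 2 ≤ Y → bG Y ≤ tow h' Y ∧ bF Y ≤ tow h' Y := by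
  let Ω : Type := {Y : ℕ // 2 ≤ Y}
  let Yf : Ω → ℕ := fun ω => ω.1
  have pc : ∀ a : ℕ, EL Yf (fun _ => ((a : ℕ) : ℝ)) := fun a => EL.const (a : ℝ) (by positivity)
  have pY : EL Yf (fun ω => (Yf ω : ℝ)) := EL.base
  have pD : EL Yf (fun ω => ((Yf ω * Yf ω + 1 : ℕ) : ℝ)) :=
    ((pY.mul pY).add (pc 1)).of_le (fun ω => by positivity) (fun ω => by push_cast; rfl)
  have pG : EL Yf (fun ω => ((bG (Yf ω) : ℕ) : ℝ)) :=
    (pD.npow _ pD).of_le (fun ω => by positivity) (fun ω => by unfold bG; push_cast; rfl)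
  have pF : EL Yf (fun ω => ((bF (Yf ω) : ℕ) : ℝ)) :=
    (((pc 2).npow _ pG).mul (((pc 2).mul (((pY.npow _ pY).npow _ pY).mul
      ((pY.mul ((pY.add (pc 1)).npow _ pY)).add (pc 1)))).npow _ pG)).of_le
      (fun ω => by positivity) (fun ω => by unfold bF; push_cast; rfl)
  obtain ⟨h', hh'⟩ := pG.two pF
  refine ⟨h', fun Y hY => ?_⟩
  have h1 := hh' (⟨Y, hY⟩ : Ω)
  exact ⟨by exact_mod_cast h1.1.2, by exact_mod_cast h1.2.2⟩

theorem clos : S_CLOS := by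
  obtain ⟨h, hh⟩ := exists_tow'
  refine ⟨h, fun N hN n a P hn ha hP => ?_⟩
  obtain ⟨h1, h2⟩ := hh N hN
  exact (RB_poly hn (by omega) a ha P hP (bG N) (bF N) le_rfl le_rfl).mono h1 h2

end Pool.Agent.P8H4.ET
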