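import Pool.Agent.P8H4.ET.Clos

/-!
Package EXB of the project ET of helper10 (helper4): the numbers `exp ((u / v) l + l')`.
-/

set_option autoImplicit false

open Finset Filter Topology Pool.Agent.R347.LW

namespace Pool.Agent.P8H4.ET

open Pool.Agent.P8H10.ET Pool.Agent.P8H4.KM

theorem exb (hclos : S_CLOS) : S_EXB := by
  obtain ⟨h₀, hh₀⟩ := hclos
  intro l l' hl hl'
  obtain ⟨m1, hm1⟩ := exists_RB hl
  obtain ⟨m2, hm2⟩ := exists_RB (show IsAlgebraic ℚ (Complex.exp (-l)) by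
    rw [Complex.exp_neg]
    exact hl.inv)
  obtain ⟨m3, hm3⟩ := exists_RB hl'
  obtain ⟨m, hm⟩ : ∃ m, m = m1 + m2 + m3 := ⟨_, rfl⟩
  have hr1 : RB m m (Complex.exp l) := hm1.mono (by omega) (by omega)
  have hr2 : RB m m (Complex.exp (-l)) := hm2.mono (by omega) (by omega)
  have hr3 : RB m m (Complex.exp l') := hm3.mono (by omega) (by omega)
  -- the size
  obtain ⟨h1, hh1⟩ : ∃ h1 : ℕ, ∀ Y : ℕ, 2 ≤ Y → (m + 3) * (Y + 2) ≤ tow h1 Y := by
    let Ω : Type := {Y : ℕ // 2 ≤ Y}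
    let Yf : Ω → ℕ := fun ω => ω.1
    have pc : ∀ a : ℕ, EL Yf (fun _ => ((a : ℕ) : ℝ)) := fun a => EL.const (a : ℝ) (by positivity)
    have pY : EL Yf (fun ω => (Yf ω : ℝ)) := EL.base
    have pN : EL Yf (fun ω => (((m + 3) * (Yf ω + 2) : ℕ) : ℝ)) :=
      ((pc (m + 3)).mul (pY.add (pc 2))).of_le (fun ω => by positivity) (fun ω => by push_cast; rfl)
    obtain ⟨h', hh'⟩ := pN
    refine ⟨h', fun Y hY => ?_⟩
    have h1 : (((m + 3) * (Y + 2) : ℕ) : ℝ) ≤ ((tow h' Y : ℕ) : ℝ) := (hh' (⟨Y, hY⟩ : Ω)).2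
    exact_mod_cast h1
  refine ⟨h₀ + h1, fun Y hY u v hu hv hvY => ?_⟩
  obtain ⟨N, hN⟩ : ∃ N, N = (m + 3) * (Y + 2) := ⟨_, rfl⟩
  have hN1 : N ≤ tow h1 Y := by
    rw [hN]
    exact hh1 Y hY
  have hmv : m * v ≤ N := by
    rw [hN]
    exact Nat.mul_le_mul (by omega) (by omega)
  have hmN : m ≤ N := by
    rw [hN]
    nlinarith
  have h3N : 3 * (Y + 2) ≤ N := by
    rw [hN]
    exact Nat.mul_le_mul_right _ (by omega)
  have hvC : (v : ℂ) ≠ 0 := by
    have : v ≠ 0 := by omega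
    exact_mod_cast this
  obtain ⟨a, ha⟩ : ∃ a : Fin 3 → ℂ, a = ![Complex.exp (l / v), Complex.exp (-l / v), Complex.exp l'] :=
    ⟨_, rfl⟩
  obtain ⟨s, hs⟩ : ∃ s : Fin 3 →₀ ℕ, ∀ i, s i = (![u.toNat, (-u).toNat, 1] : Fin 3 → ℕ) i :=
    ⟨Finsupp.equivFunOnFinite.symm ![u.toNat, (-u).toNat, 1], fun i => rfl⟩
  have hRB : ∀ i, RB N N (a i) := by
    intro i
    rw [ha]
    fin_cases i
    · refine (RB_root (by omega : 1 ≤ v) hr1 (β := Complex.exp (l / v)) ?_).mono hmv hmN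
      rw [← Complex.exp_nat_mul]
      congr 1
      field_simp
    · refine (RB_root (by omega : 1 ≤ v) hr2 (β := Complex.exp (-l / v)) ?_).mono hmv hmN
      rw [← Complex.exp_nat_mul]
      congr 1
      field_simp
    · exact hr3.mono hmN hmN
  have hSz : Sz N (MvPolynomial.monomial s (1 : ℤ)) := by
    constructor
    · rw [MvPolynomial.totalDegree_monomial s one_ne_zero, Finsupp.sum_fintype _ _ fun _ => rfl,
        Fin.sum_univ_three, hs, hs, hs]
      simp only [Matrix.cons_val_zero, Matrix.cons_val_one, Matrix.cons_val_two, Matrix.head_cons,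
        Matrix.tail_cons]
      have h1 := abs_le.1 hu
      omega
    · classical
      rw [MvPolynomial.support_monomial, if_neg one_ne_zero, Finset.sum_singleton,
        MvPolynomial.coeff_monomial, if_pos rfl, abs_one]
      have : 1 ≤ N := by omega
      exact_mod_cast this
  have h2 := hh₀ N (by omega) 3 a (MvPolynomial.monomial s (1 : ℤ)) (by omega) hRB hSz
  have h3 : MvPolynomial.aeval a (MvPolynomial.monomial s (1 : ℤ)) =
      Complex.exp ((u / v : ℂ) * l + l') := by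
    rw [MvPolynomial.aeval_monomial, map_one, one_mul, Finsupp.prod_fintype _ _ fun _ => pow_zero _,
      Fin.prod_univ_three, hs, hs, hs, ha]
    simp only [Matrix.cons_val_zero, Matrix.cons_val_one, Matrix.cons_val_two, Matrix.head_cons,
      Matrix.tail_cons, pow_one]
    rw [← Complex.exp_nat_mul, ← Complex.exp_nat_mul, ← Complex.exp_add, ← Complex.exp_add]
    congr 1
    have h4 : (u : ℂ) = (u.toNat : ℂ) - ((-u).toNat : ℂ) := by
      have h5 : u = (u.toNat : ℤ) - ((-u).toNat : ℤ) := by omega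
      have h6 := congrArg (fun t : ℤ => (t : ℂ)) h5
      push_cast at h6
      exact h6
    rw [h4]
    ring
  rw [h3] at h2
  have h4 : tow h₀ N ≤ tow (h₀ + h1) Y := by
    rw [← tow_tow]
    exact tow_mono_right h₀ hN1
  exact h2.mono h4 h4

end Pool.Agent.P8H4.ET
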