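import Pool.Agent.P8H10.ET.StmF
import Pool.Agent.W245.EB.CMz2

/-!
# Project ET of helper10, part CMQ (helper4): the quasi-period of a CM lattice
-/

set_option autoImplicit false

open scoped PeriodPair

noncomputable section

namespace Pool.Agent.P8H4.ET

open H667R3 Pool.Agent.W245.EB Pool.Agent.P8H10.ET

/-- **CMQ** -/
theorem cmq : S_CMQ := by
  intro L h2 h3 ⟨α, hαi, hm⟩
  have hα : α ≠ 0 := by
    rintro rfl
    exact hαi (by simp)
  obtain ⟨c, hcQ, hc⟩ := wp_mul_alg h2 h3 hα hm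
  obtain ⟨c₂, hc₂⟩ := zeta_mul hα hm hc
  have hαQ : α ∈ QB := mem_QB.2 (alg_of_mul hm)
  obtain ⟨N, hN⟩ : ∃ N, N = (ker hα hm).card := ⟨_, rfl⟩
  have hNpos : 0 < N := by rw [hN]; exact Finset.card_pos.2 ⟨0, zero_mem_ker hα hm⟩
  obtain ⟨z, -, hz1, -, -⟩ := exists_generic_mul h2 h3 hα hm
  -- the action on the quasi-periods
  have key : ∀ w ∈ L.lattice, α * eta L (α * w) = N * eta L w - c * w := by
    intro w hw
    have hαw := hm w hw
    have hz2 : α * (z + w) ∉ L.lattice := by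
      intro h
      apply hz1
      have := sub_mem h hαw
      rwa [show α * (z + w) - α * w = α * z by ring] at this
    have e1 := hc₂ z hz1
    have e2 := hc₂ (z + w) hz2
    have e3 : zeta L (α * (z + w)) = zeta L (α * z) + eta L (α * w) := by
      rw [mul_add]
      exact zeta_add_coe L hz1 hαw
    have e4 : ∑ x ∈ ker hα hm, zeta L (z + w - x.out) =
        ∑ x ∈ ker hα hm, zeta L (z - x.out) + N * eta L w := by
      have : ∀ x ∈ ker hα hm, zeta L (z + w - x.out) = zeta L (z - x.out) + eta L w := by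
        intro x hx
        rw [show z + w - x.out = (z - x.out) + w by ring]
        exact zeta_add_coe L (sub_out_notMem hz1 hx) hw
      rw [Finset.sum_congr rfl this, Finset.sum_add_distrib, Finset.sum_const, nsmul_eq_mul, hN]
    rw [e3, e4] at e2
    linear_combination e2 - e1
  obtain ⟨a, b, hab⟩ := PeriodPair.mem_lattice.1 (hm _ L.ω₁_mem_lattice)
  obtain ⟨n, -, hn⟩ := legendre L
  have m1 : (a : ℂ) * L.ω₁ ∈ L.lattice := by
    have := L.lattice.smul_mem a L.ω₁_mem_lattice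
    rwa [zsmul_eq_mul] at this
  have m2 : (b : ℂ) * L.ω₂ ∈ L.lattice := by
    have := L.lattice.smul_mem b L.ω₂_mem_lattice
    rwa [zsmul_eq_mul] at this
  have k1 := key _ L.ω₁_mem_lattice
  rw [← hab, eta_add L m1 m2, eta_zsmul L L.ω₁_mem_lattice, eta_zsmul L L.ω₂_mem_lattice] at k1
  have hne : (N : ℂ) - α ^ 2 ≠ 0 := by
    intro h
    apply ne_conj hαi hNpos
    rw [div_eq_iff hα]
    linear_combination h
  have main : ((N : ℂ) - α ^ 2) * (L.ω₁ * eta L L.ω₁) =
      α * b * n * (2 * Real.pi * Complex.I) + c * L.ω₁ ^ 2 := by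
    linear_combination (-L.ω₁) * k1 + (α * b) * hn + (α * eta L L.ω₁) * hab
  have hNQ : ((N : ℂ) - α ^ 2) ∈ QB := sub_mem (natCast_mem _ _) (pow_mem hαQ 2)
  refine ⟨α * b * n / (N - α ^ 2), c / (N - α ^ 2), ?_, ?_, ?_⟩
  · exact mem_QB.1 (div_mem (mul_mem (mul_mem hαQ (intCast_mem _ _)) (intCast_mem _ _)) hNQ)
  · exact mem_QB.1 (div_mem hcQ hNQ)
  · field_simp
    linear_combination main

end Pool.Agent.P8H4.ET
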