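import Pool.Agent.P8H10.ET.StmF
import Pool.Agent.P8H59.ET.Alg

/-!
# Project ET of helper10, part SIZ (helper4): sizes of `℘(p; Ω')` and of the quasi-period
(adaptation of `Pool.Agent.P8H59.ET.alg` of helper59)
-/

set_option autoImplicit false
set_option linter.all false

open Finset Pool.Agent.R347.LW
open scoped PeriodPair

namespace Pool.Agent.P8H4.ET

open Pool.Agent.P8H10.ET Pool.Agent.P8H59.ET

/-- sums with a common factor -/
theorem sumRB (hC : S_CLOS) : ∃ h : ℕ, ∀ N : ℕ, 2 ≤ N → ∀ (κ : Type) [Fintype κ] (w e : ℕ)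
    (x : κ → ℂ) (c : κ → ℤ), 1 ≤ w → w ≤ N → Fintype.card κ + 1 ≤ N → e + 1 ≤ N →
    (∀ k, |c k| ≤ 1) → (∀ k, RB N N (x k)) →
    RB (tow h N) (tow h N) (((w : ℂ)⁻¹) ^ e * ∑ k, (c k : ℂ) * x k) := by
  classical
  obtain ⟨h0, hcl⟩ := clos' hC
  refine ⟨h0, fun N hN κ _ w e x c hw hwN hκ he hc hx => ?_⟩
  have a3 := hcl N hN (Option κ) κ (fun y => y.elim ((w : ℂ))⁻¹ x) c
    (fun p y => y.elim e (fun q => if q = p then 1 else 0))
    (by rw [Fintype.card_option]; exact hκ)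
    (by
      rintro (_ | p)
      · exact RB_inv hw hwN
      · exact hx p)
    (by
      intro p
      rw [Fintype.sum_option]
      simp only [Option.elim]
      rw [Finset.sum_ite_eq' Finset.univ p]
      simp
      omega)
    (by
      have h1 : ∑ k, |c k| ≤ ∑ _k : κ, (1 : ℤ) := Finset.sum_le_sum fun k _ => hc k
      simp at h1
      have h2 : ((Fintype.card κ : ℕ) : ℤ) ≤ N := by exact_mod_cast (show Fintype.card κ ≤ N by omega)
      linarith)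
  convert a3 using 1
  rw [Finset.mul_sum]
  refine Finset.sum_congr rfl fun k _ => ?_
  rw [Fintype.prod_option]
  simp only [Option.elim, pow_ite, pow_one, pow_zero]
  rw [Finset.prod_ite_eq' Finset.univ k]
  simp
  ring

theorem tb_all (hT : S_TOR) (L : PeriodPair) (hg2 : IsAlgebraic ℚ L.g₂) (hg3 : IsAlgebraic ℚ L.g₃) :
    ∃ h : ℕ, ∀ Y : ℕ, 2 ≤ Y → ∀ u v i j : ℕ, 1 ≤ u → u ≤ Y → 1 ≤ v → v ≤ Y → i < u → j < v →
      RB (tow h Y) (tow h Y) (℘[L] ((i : ℂ) * L.ω₁ / u + (j : ℂ) * L.ω₂ / v)) := by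
  obtain ⟨h1, ht⟩ := tb_aux hT L hg2 hg3
  obtain ⟨m0, hm0⟩ := exists_RB (isAlgebraic_zero (R := ℚ) (A := ℂ))
  refine ⟨h1 + m0, fun Y hY u v i j hu huY hv hvY hi hj => ?_⟩
  by_cases hij : i ≠ 0 ∨ j ≠ 0
  · exact RB_up (ht Y hY u v i j hu huY hv hvY hi hj hij) (Nat.le_add_right _ _)
  · push Not at hij
    obtain ⟨rfl, rfl⟩ := hij
    have e0 : ((0 : ℕ) : ℂ) * L.ω₁ / u + ((0 : ℕ) : ℂ) * L.ω₂ / v = 0 := by simp
    rw [e0, PeriodPair.weierstrassP_zero]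
    exact RB_up (RB_const hm0 Y) (Nat.le_add_left _ _)

theorem pb (hT : S_TOR) (L : PeriodPair) (hg2 : IsAlgebraic ℚ L.g₂) (hg3 : IsAlgebraic ℚ L.g₃)
    (a b : ℚ) : ∃ h : ℕ, ∀ Y : ℕ, 2 ≤ Y → ∀ (u v i j : ℕ) (L' : PeriodPair), 1 ≤ u → u ≤ Y →
      1 ≤ v → v ≤ Y → L'.ω₁ = L.ω₁ → L'.ω₂ = (u / v : ℂ) * L.ω₂ →
      (a * L.ω₁ + b * L.ω₂ : ℂ) ∉ L'.lattice →
      RB (tow h Y) (tow h Y)
        (℘[L] ((a * L.ω₁ + b * L.ω₂) / u - ((i : ℂ) * L.ω₁ / u + (j : ℂ) * L.ω₂ / v))) := by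
  obtain ⟨h, hh⟩ := hT L hg2 hg3
  obtain ⟨D, hD⟩ : ∃ D : ℕ, D = a.den * b.den := ⟨_, rfl⟩
  have hD1 : 1 ≤ D := by rw [hD]; exact Nat.mul_pos a.den_pos b.den_pos
  refine ⟨h + (2 + (2 * D + 2)), fun Y hY u v i j L' hu huY hv hvY e1 e2 hp => ?_⟩
  have hu' : (u : ℂ) ≠ 0 := by exact_mod_cast (show u ≠ 0 by omega)
  have hv' : (v : ℂ) ≠ 0 := by exact_mod_cast (show v ≠ 0 by omega)
  have ha : (a : ℂ) * a.den = a.num := by exact_mod_cast Rat.mul_den_eq_num a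
  have hb : (b : ℂ) * b.den = b.num := by exact_mod_cast Rat.mul_den_eq_num b
  have h1 : (a * L.ω₁ + b * L.ω₂) / u - ((i : ℂ) * L.ω₁ / u + (j : ℂ) * L.ω₂ / v) ∉ L.lattice := by
    intro hm
    rw [PeriodPair.mem_lattice] at hm
    obtain ⟨m, n, hmn⟩ := hm
    apply hp
    rw [PeriodPair.mem_lattice]
    refine ⟨u * m + i, v * n + j, ?_⟩
    rw [e1, e2]
    have h2 : (a * L.ω₁ + b * L.ω₂ : ℂ) = u * (m * L.ω₁ + n * L.ω₂) +
        u * ((i : ℂ) * L.ω₁ / u + (j : ℂ) * L.ω₂ / v) := by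
      rw [hmn]
      field_simp
      ring
    rw [h2]
    push_cast
    field_simp
    ring
  have h2 : ((2 * D * (u * v) : ℕ) : ℂ) *
      ((a * L.ω₁ + b * L.ω₂) / u - ((i : ℂ) * L.ω₁ / u + (j : ℂ) * L.ω₂ / v)) ∈ L.lattice := by
    rw [PeriodPair.mem_lattice]
    refine ⟨2 * v * (a.num * b.den) - 2 * D * (i * v), 2 * v * (b.num * a.den) - 2 * D * (j * u), ?_⟩
    push_cast
    rw [← ha, ← hb, hD]
    push_cast
    field_simp
    ring
  have h3 := hh (2 * D * (u * v)) (by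
    have : 1 ≤ u * v := Nat.mul_pos hu hv
    nlinarith) _ h1 h2
  have h4 : 2 * D * (u * v) ≤ tow (2 + (2 * D + 2)) Y := by
    rw [← tow_tow]
    refine le_trans ?_ (sq_le_tow (tow (2 * D + 2) Y))
    refine Nat.mul_le_mul ?_ ?_
    · exact (by omega : 2 * D ≤ 2 * D + 2).trans (le_tow' _ _)
    · exact ((Nat.mul_le_mul huY hvY).trans (sq_le_tow Y)).trans (tow_mono_left (by omega) Y)
  have h5 : tow h (2 * D * (u * v)) ≤ tow (h + (2 + (2 * D + 2))) Y := by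
    rw [← tow_tow h]
    exact tow_mono_right _ h4
  exact RB_mono h3 h5 h5

/-- **SIZ** -/
theorem siz (hC : S_CLOS) (_ : S_ROOT) (hT : S_TOR) (hP : S_SUPP) (hE : S_SUPE) : S_SIZ := by
  classical
  intro L hg2 hg3 a b
  obtain ⟨h0, hs⟩ := sumRB hC
  obtain ⟨h1, h1s⟩ := tb_all hT L hg2 hg3
  obtain ⟨h2, h2s⟩ := pb hT L hg2 hg3 a b
  obtain ⟨H, hH⟩ : ∃ H, H = h1 + h2 + 5 := ⟨_, rfl⟩
  refine ⟨h0 + H, fun Y hY u v L' hu huY hv hvY e1 e2 hp => ?_⟩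
  have hu' : (u : ℂ) ≠ 0 := by exact_mod_cast (show u ≠ 0 by omega)
  have hv' : (v : ℂ) ≠ 0 := by exact_mod_cast (show v ≠ 0 by omega)
  have hN := le_tow' H Y
  have huv : 2 * (u * v) + 1 ≤ tow H Y := by
    obtain ⟨M, hM⟩ : ∃ M, M = tow 2 Y := ⟨_, rfl⟩
    have b1 : u * v ≤ M := by rw [hM]; exact (Nat.mul_le_mul huY hvY).trans (sq_le_tow Y)
    have b2 : 4 ≤ M := by
      have := le_tow 2 Y
      omega
    have b3 : M * M ≤ tow (2 + 2) Y := by rw [← tow_tow, ← hM]; exact sq_le_tow M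
    have b4 : tow (2 + 2) Y ≤ tow H Y := tow_mono_left (by omega) Y
    nlinarith
  have huv1 : 1 ≤ u * v := Nat.mul_pos hu hv
  refine ⟨?_, ?_⟩
  · have a3 := hs (tow H Y) (by omega) ((Fin u × Fin v) ⊕ (Fin u × Fin v)) u 2
      (Sum.elim (fun p => ℘[L] ((a * L.ω₁ + b * L.ω₂) / u -
          (((p.1 : ℕ) : ℂ) * L.ω₁ / u + ((p.2 : ℕ) : ℂ) * L.ω₂ / v)))
        (fun p => ℘[L] (((p.1 : ℕ) : ℂ) * L.ω₁ / u + ((p.2 : ℕ) : ℂ) * L.ω₂ / v)))
      (Sum.elim (fun _ => 1) (fun _ => -1)) hu (by nlinarith)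
      (by
        rw [Fintype.card_sum, Fintype.card_prod, Fintype.card_fin, Fintype.card_fin]
        omega) (by omega)
      (by rintro (p | p) <;> simp)
      (by
        rintro (p | p)
        · exact RB_up (h2s Y hY u v p.1 p.2 L' hu huY hv hvY e1 e2 hp) (by omega)
        · exact RB_up (h1s Y hY u v p.1 p.2 hu huY hv hvY p.1.isLt p.2.isLt) (by omega))
    rw [tow_tow] at a3
    convert a3 using 1
    have e3 := hP L L' u v (by omega) (by omega) e1 e2 _ hp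
    have e4 : ℘[L'] (a * L.ω₁ + b * L.ω₂) =
        ((u : ℂ)⁻¹) ^ 2 * ((u : ℂ) ^ 2 * ℘[L'] (a * L.ω₁ + b * L.ω₂)) := by
      rw [← mul_assoc, ← mul_pow, inv_mul_cancel₀ hu', one_pow, one_mul]
    rw [e4, e3, Fintype.sum_sum_type]
    congr 1
    simp only [Sum.elim_inl, Sum.elim_inr, Finset.sum_range, Fintype.sum_prod_type]
    rw [← Finset.sum_add_distrib]
    refine Finset.sum_congr rfl fun i _ => ?_
    rw [← Finset.sum_add_distrib]
    refine Finset.sum_congr rfl fun j _ => ?_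
    push_cast
    ring
  · have a3 := hs (tow H Y) (by omega) (Fin u × Fin v) (u * v) 1
      (fun p => ℘[L] (((p.1 : ℕ) : ℂ) * L.ω₁ / u + ((p.2 : ℕ) : ℂ) * L.ω₂ / v))
      (fun _ => 1) huv1 (by omega)
      (by
        rw [Fintype.card_prod, Fintype.card_fin, Fintype.card_fin]
        omega) (by omega)
      (by intro p; simp)
      (by
        intro p
        exact RB_up (h1s Y hY u v p.1 p.2 hu huY hv hvY p.1.isLt p.2.isLt) (by omega))
    rw [tow_tow] at a3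
    convert a3 using 1
    have e3 := hE L L' u v (by omega) (by omega) e1 e2
    have hw : L.ω₁ ≠ 0 := Pool.Agent.W245.EB.ω₁_ne_zero L
    simp only [Fintype.sum_prod_type]
    simp only [Finset.sum_range] at e3
    obtain ⟨Sg, hSg⟩ : ∃ S : ℂ, S = ∑ i : Fin u, ∑ j : Fin v,
      ℘[L] (((i : ℕ) : ℂ) * L.ω₁ / u + ((j : ℕ) : ℂ) * L.ω₂ / v) := ⟨_, rfl⟩
    rw [← hSg] at e3
    have e5 : ∑ x : Fin u, ∑ y : Fin v, (((1 : ℤ) : ℂ)) *
        ℘[L] (((x : ℕ) : ℂ) * L.ω₁ / u + ((y : ℕ) : ℂ) * L.ω₂ / v) = Sg := by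
      rw [hSg]
      refine Finset.sum_congr rfl fun i _ => Finset.sum_congr rfl fun j _ => ?_
      push_cast
      ring
    rw [e5]
    have e6 : H667R3.eta L' L'.ω₁ = (u : ℂ)⁻¹ * (v * H667R3.eta L L.ω₁ + (u : ℂ)⁻¹ * L.ω₁ * Sg) := by
      rw [← e3, ← mul_assoc, inv_mul_cancel₀ hu', one_mul]
    rw [e6]
    push_cast
    field_simp
    ring

end Pool.Agent.P8H4.ET
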